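import Pool.Agent.H5.N6F.SWP

/-! # Row FALG: a vector of the plane which moves the condition -/

set_option autoImplicit false

open Polynomial NumberField IsDedekindDomain Matrix Pool.Agent.H32.QC Pool.Agent.H34.N6
open Pool.Agent.H18.N6F

namespace Pool.Agent.H5.N6F

variable {F : Type} [Field F]

lemma dep3 (u v w : Fin 7 → F) (h : LinearIndependent F ![u, v])
    (h' : ¬ LinearIndependent F ![u, v, w]) : ∃ a b : F, w = a • u + b • v := by
  rw [Fintype.not_linearIndependent_iff] at h'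
  obtain ⟨g, hg, i, hi⟩ := h'
  rw [Fin.sum_univ_three] at hg
  change g 0 • u + g 1 • v + g 2 • w = 0 at hg
  by_cases h2 : g 2 = 0
  · exfalso
    rw [h2, zero_smul, add_zero] at hg
    obtain ⟨h0, h1⟩ := LinearIndependent.pair_iff.1 h _ _ hg
    fin_cases i
    · exact hi h0
    · exact hi h1
    · exact hi h2
  · refine ⟨-(g 0 / g 2), -(g 1 / g 2), ?_⟩
    have h3 : w = (g 2)⁻¹ • (g 2 • w) := by rw [smul_smul, inv_mul_cancel₀ h2, one_smul]
    have h4 : g 2 • w = -(g 0 • u + g 1 • v) := by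
      rw [eq_neg_iff_add_eq_zero, add_comm]
      exact hg
    rw [h3, h4, smul_neg, smul_add, smul_smul, smul_smul, neg_smul, neg_smul, ← neg_add,
      div_eq_inv_mul, div_eq_inv_mul]

lemma JJ_inj (d : F) (hd : d ≠ 0) (x : Fin 7 → F) (h : JJ d *ᵥ x = 0) : x = 0 := by
  have key : ∀ y : Fin 7 → F, y ⬝ᵥ (JJ d *ᵥ x) = 0 := fun y => by rw [h, dotProduct_zero]
  simp only [JJ_form] at key
  have h0 := key ![0, 0, 0, 0, 1, 0, 0]
  have h1 := key ![0, 0, 0, 0, 0, 1, 0]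
  have h2 := key ![0, 0, 0, 0, 0, 0, 1]
  have h3 := key ![0, 0, 0, 1, 0, 0, 0]
  have h4 := key ![1, 0, 0, 0, 0, 0, 0]
  have h5 := key ![0, 1, 0, 0, 0, 0, 0]
  have h6 := key ![0, 0, 1, 0, 0, 0, 0]
  simp at h0 h1 h2 h3 h4 h5 h6
  funext i
  fin_cases i
  · exact h0
  · exact h1
  · exact h2
  · exact h3.resolve_left hd
  · exact h4
  · exact h5
  · exact h6

lemma two_vec (d : F) (x : Fin 7 → F) (h : ¬ (x 4 = 0 ∧ x 5 = 0 ∧ x 6 = 0)) :
    ∃ w₁ w₂ : Fin 7 → F, (w₁ 3 = 0 ∧ w₁ 4 = 0 ∧ w₁ 5 = 0 ∧ w₁ 6 = 0 ∧ w₁ ⬝ᵥ (JJ d *ᵥ x) = 0) ∧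
      (w₂ 3 = 0 ∧ w₂ 4 = 0 ∧ w₂ 5 = 0 ∧ w₂ 6 = 0 ∧ w₂ ⬝ᵥ (JJ d *ᵥ x) = 0) ∧
      ∀ s t : F, s • w₁ + t • w₂ = 0 → s = 0 ∧ t = 0 := by
  by_cases h4 : x 4 = 0
  · by_cases h5 : x 5 = 0
    · have h6 : x 6 ≠ 0 := fun h6 => h ⟨h4, h5, h6⟩
      refine ⟨![x 6, 0, -(x 4), 0, 0, 0, 0], ![0, x 6, -(x 5), 0, 0, 0, 0], ?_, ?_, ?_⟩
      · refine ⟨rfl, rfl, rfl, rfl, ?_⟩
        rw [JJ_form]
        simp
        ring
      · refine ⟨rfl, rfl, rfl, rfl, ?_⟩
        rw [JJ_form]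
        simp
        ring
      · intro s t hst
        have a0 := congrFun hst 0
        have a1 := congrFun hst 1
        simp [h6] at a0 a1
        exact ⟨a0, a1⟩
    · refine ⟨![x 5, -(x 4), 0, 0, 0, 0, 0], ![0, x 6, -(x 5), 0, 0, 0, 0], ?_, ?_, ?_⟩
      · refine ⟨rfl, rfl, rfl, rfl, ?_⟩
        rw [JJ_form]
        simp
        ring
      · refine ⟨rfl, rfl, rfl, rfl, ?_⟩
        rw [JJ_form]
        simp
        ring
      · intro s t hst
        have a0 := congrFun hst 0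
        have a2 := congrFun hst 2
        simp [h5] at a0 a2
        exact ⟨a0, a2⟩
  · refine ⟨![x 5, -(x 4), 0, 0, 0, 0, 0], ![x 6, 0, -(x 4), 0, 0, 0, 0], ?_, ?_, ?_⟩
    · refine ⟨rfl, rfl, rfl, rfl, ?_⟩
      rw [JJ_form]
      simp
      ring
    · refine ⟨rfl, rfl, rfl, rfl, ?_⟩
      rw [JJ_form]
      simp
      ring
    · intro s t hst
      have a1 := congrFun hst 1
      have a2 := congrFun hst 2
      simp [h4] at a1 a2
      exact ⟨a1, a2⟩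

theorem pf_ALG : T_ALG := by
  intro F _ h2 q d hd hq hs hti x hx hfx hqx μ _
  have hpi : ¬ (x 3 = 0 ∧ x 4 = 0 ∧ x 5 = 0 ∧ x 6 = 0) := by
    rintro ⟨h3, h4, h5, h6⟩
    apply hti
    refine ⟨fun _ i => x (lo i), ?_, ?_⟩
    · rw [linearIndependent_unique_iff]
      intro h0
      apply hx
      have e : ∀ i : Fin 3, x (lo i) = 0 := fun i => congrFun h0 i
      funext i
      fin_cases i
      · exact e 0
      · exact e 1
      · exact e 2
      · exact h3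
      · exact h4
      · exact h5
      · exact h6
    · intro _ _
      rw [← hqx]
      simp only [dotProduct, mulVec, Fin.sum_univ_seven, Fin.sum_univ_three, h3, h4, h5, h6,
        mul_zero, zero_mul, add_zero]
      rfl
  have hxi : ¬ (x 4 = 0 ∧ x 5 = 0 ∧ x 6 = 0) := by
    rintro ⟨h4, h5, h6⟩
    rw [JJ_form, h4, h5, h6] at hfx
    have h7 : d * (x 3 * x 3) = 0 := by linear_combination hfx
    have h3 : x 3 = 0 := mul_self_eq_zero.1 ((mul_eq_zero.1 h7).resolve_left hd)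
    exact hpi ⟨h3, h4, h5, h6⟩
  have hfx0 : JJ d *ᵥ x ≠ 0 := fun h => hx (JJ_inj d hd x h)
  have hpair : LinearIndependent F ![JJ d *ᵥ x, q *ᵥ x] := by
    rw [LinearIndependent.pair_iff]
    intro s t hst
    by_cases ht : t = 0
    · rw [ht, zero_smul, add_zero] at hst
      exact ⟨(smul_eq_zero.1 hst).resolve_right hfx0, ht⟩
    · exfalso
      refine hs (-(s / t)) x hx ?_ hfx
      have h3 : q *ᵥ x = t⁻¹ • (t • (q *ᵥ x)) := by
        rw [smul_smul, inv_mul_cancel₀ ht, one_smul]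
      have h4 : t • (q *ᵥ x) = -(s • (JJ d *ᵥ x)) := by
        rw [eq_neg_iff_add_eq_zero, add_comm]
        exact hst
      rw [h3, h4, smul_neg, smul_smul, neg_smul, div_eq_inv_mul]
  -- the main contradiction
  have main : ∀ w : Fin 7 → F, w ≠ 0 → w 3 = 0 → w 4 = 0 → w 5 = 0 → w 6 = 0 →
      w ⬝ᵥ (JJ d *ᵥ x) = 0 → ∀ b : F,
      (q - μ • JJ d) *ᵥ w = b • ((q - μ • JJ d) *ᵥ x) → False := by
    intro w hw h3 h4 h5 h6 hwx b hb
    have hk : w - b • x ≠ 0 := by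
      intro h0
      have h1 : w = b • x := sub_eq_zero.1 h0
      have hb0 : b ≠ 0 := by
        rintro rfl
        exact hw (by rw [h1, zero_smul])
      apply hpi
      have e : ∀ i, w i = 0 → x i = 0 := by
        intro i hi
        rw [h1] at hi
        exact (mul_eq_zero.1 hi).resolve_left hb0
      exact ⟨e 3 h3, e 4 h4, e 5 h5, e 6 h6⟩
    have h7 : (q - μ • JJ d) *ᵥ (w - b • x) = 0 := by
      rw [mulVec_sub, mulVec_smul, hb, sub_self]
    have h8 : q *ᵥ (w - b • x) = μ • (JJ d *ᵥ (w - b • x)) := by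
      rw [sub_mulVec, smul_mulVec] at h7
      exact sub_eq_zero.1 h7
    refine hs μ _ hk h8 ?_
    rw [JJ_form] at hwx hfx ⊢
    rw [h3, h4, h5, h6] at hwx
    simp only [Pi.sub_apply, Pi.smul_apply, smul_eq_mul, h3, h4, h5, h6]
    linear_combination (-2 * b) * hwx + b ^ 2 * hfx
  by_contra hno
  push Not at hno
  have hw : ∀ w : Fin 7 → F, w 3 = 0 → w 4 = 0 → w 5 = 0 → w 6 = 0 →
      w ⬝ᵥ (JJ d *ᵥ x) = 0 → ∃ a b : F, (q - μ • JJ d) *ᵥ w =
        a • (JJ d *ᵥ x) + b • ((q - μ • JJ d) *ᵥ x) := by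
    intro w h3 h4 h5 h6 hwx
    obtain ⟨a, b, hab⟩ := dep3 _ _ _ hpair (hno w h3 h4 h5 h6 hwx)
    refine ⟨a + b * μ, b, ?_⟩
    rw [hab, sub_mulVec, smul_mulVec, smul_sub, smul_smul, add_smul]
    abel
  obtain ⟨w₁, w₂, ⟨a3, a4, a5, a6, ax⟩, ⟨b3, b4, b5, b6, bx⟩, hind⟩ := two_vec d x hxi
  obtain ⟨α₁, β₁, e₁⟩ := hw w₁ a3 a4 a5 a6 ax
  obtain ⟨α₂, β₂, e₂⟩ := hw w₂ b3 b4 b5 b6 bx
  by_cases h0 : α₁ = 0 ∧ α₂ = 0
  · refine main w₁ ?_ a3 a4 a5 a6 ax β₁ ?_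
    · rintro rfl
      have := (hind 1 0 (by rw [smul_zero, zero_smul, add_zero])).1
      exact one_ne_zero this
    · rw [e₁, h0.1, zero_smul, zero_add]
  · refine main (α₂ • w₁ + (-α₁) • w₂) ?_ ?_ ?_ ?_ ?_ ?_ (α₂ * β₁ - α₁ * β₂) ?_
    · intro h
      obtain ⟨c1, c2⟩ := hind _ _ h
      exact h0 ⟨neg_eq_zero.1 c2, c1⟩
    · simp only [Pi.add_apply, Pi.smul_apply, smul_eq_mul, a3, b3, mul_zero, add_zero]
    · simp only [Pi.add_apply, Pi.smul_apply, smul_eq_mul, a4, b4, mul_zero, add_zero]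
    · simp only [Pi.add_apply, Pi.smul_apply, smul_eq_mul, a5, b5, mul_zero, add_zero]
    · simp only [Pi.add_apply, Pi.smul_apply, smul_eq_mul, a6, b6, mul_zero, add_zero]
    · rw [add_dotProduct, smul_dotProduct, smul_dotProduct, ax, bx, smul_zero, smul_zero, add_zero]
    · rw [mulVec_add, mulVec_smul, mulVec_smul, e₁, e₂]
      simp only [smul_add, smul_smul, sub_smul, neg_mul, neg_smul]
      rw [mul_comm α₂ α₁]
      abel

end Pool.Agent.H5.N6F
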