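import Pool.Agent.H18.N6F.Targets

/-! # Rows FSGM, FAPX, FWAM -/

set_option autoImplicit false

open Polynomial NumberField IsDedekindDomain Matrix Pool.Agent.H32.QC Pool.Agent.H34.N6
open Pool.Agent.H18.N6F

namespace Pool.Agent.H5.N6F

lemma conj_form {F : Type*} [Field F] {n : ℕ} (A Q : Matrix (Fin n) (Fin n) F) (x y : Fin n → F) :
    x ⬝ᵥ ((Qᵀ * A * Q) *ᵥ y) = (Q *ᵥ x) ⬝ᵥ (A *ᵥ (Q *ᵥ y)) := by
  rw [← mulVec_mulVec, ← mulVec_mulVec, dotProduct_mulVec, vecMul_transpose]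

lemma map_JJ {K F : Type*} [Field K] [Field F] (ι : K →+* F) (d : K) :
    (JJ d).map ι = JJ (ι d) := by
  ext i j
  simp only [Matrix.map_apply, JJ]
  split_ifs <;> simp

lemma sw_sw (σ : Fin 3 → Bool) (j : Fin 7) : sw σ (sw σ j) = j := by
  rcases h0 : σ 0 with _ | _ <;> rcases h1 : σ 1 with _ | _ <;> rcases h2 : σ 2 with _ | _ <;>
  fin_cases j <;> simp [sw, h0, h1, h2]

lemma JJ_sw {F : Type*} [Field F] (σ : Fin 3 → Bool) (d : F) (i j : Fin 7) :
    JJ d (sw σ i) (sw σ j) = JJ d i j := by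
  rcases h0 : σ 0 with _ | _ <;> rcases h1 : σ 1 with _ | _ <;> rcases h2 : σ 2 with _ | _ <;>
  fin_cases i <;> fin_cases j <;> simp [sw, h0, h1, h2, JJ]

lemma SG_mulVec {F : Type*} [Field F] (σ : Fin 3 → Bool) (x : Fin 7 → F) (j : Fin 7) :
    ((SG σ : Matrix (Fin 7) (Fin 7) F) *ᵥ x) j = x (sw σ j) := by
  simp only [mulVec, dotProduct, SG]
  rw [Finset.sum_eq_single (sw σ j)]
  · rw [sw_sw, if_pos rfl, one_mul]
  · intro k _ hk
    rw [if_neg, zero_mul]
    rintro rfl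
    exact hk (sw_sw σ k).symm
  · intro h
    exact absurd (Finset.mem_univ _) h

lemma SG_transpose {F : Type*} [Field F] (σ : Fin 3 → Bool) :
    (SG σ : Matrix (Fin 7) (Fin 7) F)ᵀ = SG σ := by
  ext i j
  simp only [transpose_apply, SG]
  by_cases h : j = sw σ i
  · rw [if_pos h, if_pos (by rw [h, sw_sw])]
  · rw [if_neg h, if_neg]
    rintro rfl
    exact h (sw_sw σ j).symm

theorem pf_SGM : T_SGM := by
  intro F _ σ d
  refine ⟨?_, ?_, SG_mulVec σ⟩
  · ext i j
    have h1 : ((SG σ : Matrix (Fin 7) (Fin 7) F)ᵀ * JJ d * (SG σ : Matrix (Fin 7) (Fin 7) F) :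
        Matrix (Fin 7) (Fin 7) F) i j =
        ∑ k, (∑ l, (SG σ : Matrix (Fin 7) (Fin 7) F) l i * JJ d l k) *
          (SG σ : Matrix (Fin 7) (Fin 7) F) k j := by
      simp only [mul_apply, transpose_apply]
    rw [h1, Finset.sum_eq_single (sw σ j)]
    · rw [Finset.sum_eq_single (sw σ i)]
      · simp only [SG, if_true, one_mul, mul_one]
        exact JJ_sw σ d i j
      · intro l _ hl
        simp only [SG]
        rw [if_neg hl, zero_mul]
      · intro h
        exact absurd (Finset.mem_univ _) h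
    · intro k _ hk
      simp only [SG]
      rw [if_neg hk, mul_zero]
    · intro h
      exact absurd (Finset.mem_univ _) h
  · apply Matrix.ext_of_mulVec_single
    intro i
    rw [← mulVec_mulVec, one_mulVec]
    funext j
    rw [SG_mulVec, SG_mulVec, sw_sw]

theorem pf_APX (hFRM : T_FRM) (hSGM : T_SGM) (hSWP : T_SWP) (hCEL : T_CEL) : T_APX := by
  classical
  intro K F _ _ ι hι h2 f hf hdet hTI p hp hpi ε hε
  have h2K : (2 : K) ≠ 0 := by
    intro h
    apply h2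
    have := congrArg ι h
    rwa [map_ofNat, map_zero] at this
  obtain ⟨b0, hb0, hb0'⟩ := hTI
  obtain ⟨B, d, hB, hd, hBf, -⟩ := hFRM K h2K f hf hdet b0 hb0 hb0'
  set BF := B.map ι with hBF
  have hBFu : IsUnit BF.det := by
    have h1 : BF.det = ι B.det := by
      rw [hBF]
      exact (RingHom.map_det ι B).symm
    rw [h1]
    exact hB.map ι
  have hBFf : BFᵀ * f.map ι * BF = JJ (ι d) := by
    rw [← map_JJ, ← hBf, Matrix.map_mul, Matrix.map_mul, Matrix.transpose_map]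
  set c : Fin 3 → Fin 7 → F := fun i => BF⁻¹ *ᵥ p i with hc
  have hBc : ∀ i, BF *ᵥ c i = p i := by
    intro i
    rw [hc]
    show BF *ᵥ (BF⁻¹ *ᵥ p i) = p i
    rw [mulVec_mulVec, mul_nonsing_inv _ hBFu, one_mulVec]
  have hcl : LinearIndependent F c := by
    have h1 : p = fun i => BF.mulVecLin (c i) := by
      funext i
      exact (hBc i).symm
    rw [h1] at hp
    exact LinearIndependent.of_comp BF.mulVecLin hp
  have hci : ∀ i j, c i ⬝ᵥ (JJ (ι d) *ᵥ c j) = 0 := by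
    intro i j
    rw [← hBFf, conj_form, hBc, hBc]
    exact hpi i j
  have hdF : ι d ≠ 0 := (map_ne_zero ι).2 hd
  obtain ⟨σ, hσ⟩ := hSWP F h2 (ι d) hdF c hcl hci
  have hsgF := hSGM F σ (ι d)
  have hsgK := hSGM K σ d
  set c1 : Fin 3 → Fin 7 → F := fun i => SG σ *ᵥ c i with hc1
  have hc1i : ∀ i j, c1 i ⬝ᵥ (JJ (ι d) *ᵥ c1 j) = 0 := by
    intro i j
    show (SG σ *ᵥ c i) ⬝ᵥ (JJ (ι d) *ᵥ (SG σ *ᵥ c j)) = 0
    rw [← conj_form, hsgF.1]
    exact hci i j
  have hc1d : (Matrix.of fun i j : Fin 3 => c1 i ⟨j, by omega⟩).det ≠ 0 := by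
    have h1 : (Matrix.of fun i j : Fin 3 => c1 i ⟨j, by omega⟩) =
        (Matrix.of fun i j : Fin 3 => c i (sw σ ⟨j, by omega⟩)) := by
      ext i j
      exact hsgF.2.2 (c i) _
    rw [h1]
    exact hσ
  set C : ℝ := ∑ j, ∑ l, ‖BF j l‖ with hC
  have hC0 : 0 ≤ C := Finset.sum_nonneg fun _ _ => Finset.sum_nonneg fun _ _ => norm_nonneg _
  obtain ⟨c', hc'i, hc'd, hc'c⟩ := hCEL K F ι hι h2 d hd c1 hc1i hc1d (ε / (C + 1))
    (by positivity)
  refine ⟨fun i => B *ᵥ (SG σ *ᵥ c' i), ?_, ?_, ?_⟩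
  · -- linear independence
    have h1 : LinearIndependent K c' := by
      rw [Fintype.linearIndependent_iff]
      intro a ha
      by_contra hne
      push Not at hne
      obtain ⟨i0, hi0⟩ := hne
      apply hc'd
      apply Matrix.exists_vecMul_eq_zero_iff.1
      refine ⟨a, fun h => hi0 (congrFun h i0), ?_⟩
      funext j
      have h2 := congrFun ha (⟨j, by omega⟩ : Fin 7)
      simp only [Finset.sum_apply, Pi.smul_apply, smul_eq_mul, Pi.zero_apply] at h2
      simpa [vecMul, dotProduct] using h2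
    have hinj : LinearMap.ker ((B * SG σ).mulVecLin) = ⊥ := by
      rw [Matrix.ker_mulVecLin_eq_bot_iff]
      intro v hv
      have h3 : (SG σ * B⁻¹) *ᵥ ((B * SG σ) *ᵥ v) = v := by
        rw [mulVec_mulVec, Matrix.mul_assoc, ← Matrix.mul_assoc B⁻¹, nonsing_inv_mul _ hB,
          Matrix.one_mul, hsgK.2.1, one_mulVec]
      rw [← h3, hv, mulVec_zero]
    have h4 := h1.map' _ hinj
    have h5 : (fun i => B *ᵥ (SG σ *ᵥ c' i)) = (B * SG σ).mulVecLin ∘ c' := by
      funext i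
      show _ = (B * SG σ) *ᵥ c' i
      rw [mulVec_mulVec]
    rw [h5]
    exact h4
  · intro i j
    show (B *ᵥ (SG σ *ᵥ c' i)) ⬝ᵥ (f *ᵥ (B *ᵥ (SG σ *ᵥ c' j))) = 0
    rw [← conj_form, hBf, ← conj_form, hsgK.1]
    exact hc'i i j
  · intro i j
    have e1 : ι ((B *ᵥ (SG σ *ᵥ c' i)) j) = ∑ l, BF j l * ι (c' i (sw σ l)) := by
      rw [mulVec, dotProduct, map_sum]
      refine Finset.sum_congr rfl fun l _ => ?_
      rw [map_mul, hsgK.2.2]
      rfl
    have e2 : p i j = ∑ l, BF j l * c1 i (sw σ l) := by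
      rw [← hBc i, mulVec, dotProduct]
      refine Finset.sum_congr rfl fun l _ => ?_
      have h3 : c1 i (sw σ l) = c i l := by
        show (SG σ *ᵥ c i) (sw σ l) = c i l
        rw [hsgF.2.2, sw_sw]
      rw [h3]
    show ‖ι ((B *ᵥ (SG σ *ᵥ c' i)) j) - p i j‖ < ε
    rw [e1, e2, ← Finset.sum_sub_distrib]
    calc ‖∑ l, (BF j l * ι (c' i (sw σ l)) - BF j l * c1 i (sw σ l))‖
        ≤ ∑ l, ‖BF j l‖ * (ε / (C + 1)) := by
          refine (norm_sum_le _ _).trans (Finset.sum_le_sum fun l _ => ?_)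
          rw [← mul_sub, norm_mul]
          exact mul_le_mul_of_nonneg_left (hc'c i _).le (norm_nonneg _)
      _ = (∑ l, ‖BF j l‖) * (ε / (C + 1)) := by rw [Finset.sum_mul]
      _ ≤ C * (ε / (C + 1)) := by
          refine mul_le_mul_of_nonneg_right ?_ (by positivity)
          exact Finset.single_le_sum (f := fun j => ∑ l, ‖BF j l‖)
            (fun _ _ => Finset.sum_nonneg fun _ _ => norm_nonneg _) (Finset.mem_univ j)
      _ < ε := by
          rw [← mul_div_assoc, div_lt_iff₀ (by positivity)]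
          nlinarith

theorem pf_WAM (hWAP : T_WAP) : T_WAM := by
  classical
  intro K _ _ S g h e e' he he'
  have : Finite (K →+* ℝ) := by
    refine Finite.of_injective (fun φ : K →+* ℝ => (Complex.ofRealHom.comp φ : K →+* ℂ)) ?_
    intro φ ψ h
    ext x
    have h3 := DFunLike.congr_fun h x
    exact Complex.ofReal_injective h3
  let _ : Fintype (K →+* ℝ) := Fintype.ofFinite _
  obtain ⟨e0, he0, hle1, hle2⟩ : ∃ e0 : ℝ, 0 < e0 ∧ (∀ v ∈ S, e0 ≤ e v) ∧ ∀ φ, e0 ≤ e' φ := by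
    have h1 : ∃ a : ℝ, 0 < a ∧ ∀ v ∈ S, a ≤ e v := by
      rcases S.eq_empty_or_nonempty with rfl | hne
      · exact ⟨1, one_pos, by simp⟩
      · exact ⟨S.inf' hne e, (Finset.lt_inf'_iff _).2 fun v _ => he v,
          fun v hv => Finset.inf'_le _ hv⟩
    have h2 : ∃ a : ℝ, 0 < a ∧ ∀ φ : K →+* ℝ, a ≤ e' φ := by
      rcases (Finset.univ : Finset (K →+* ℝ)).eq_empty_or_nonempty with hem | hne
      · refine ⟨1, one_pos, fun φ => ?_⟩
        have := Finset.mem_univ φ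
        rw [hem] at this
        simp at this
      · exact ⟨Finset.univ.inf' hne e', (Finset.lt_inf'_iff _).2 fun v _ => he' v,
          fun φ => Finset.inf'_le _ (Finset.mem_univ φ)⟩
    obtain ⟨a, ha, ha'⟩ := h1
    obtain ⟨b, hb, hb'⟩ := h2
    exact ⟨min a b, lt_min ha hb, fun v hv => (min_le_left _ _).trans (ha' v hv),
      fun φ => (min_le_right _ _).trans (hb' φ)⟩
  have hz : ∀ i j : Fin 3, ∃ z : K, (∀ v ∈ S, ‖ic v z - g v i j‖ < e0) ∧
      ∀ τ : K →+* ℝ, |τ z - h τ i j| < e0 := fun i j =>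
    hWAP K S (fun v => g v i j) (fun τ => h τ i j) e0 he0
  choose z hz1 hz2 using hz
  refine ⟨fun i j => z i j, fun v hv i j => (hz1 i j v hv).trans_le (hle1 v hv),
    fun τ i j => ?_⟩
  rw [Real.norm_eq_abs]
  exact (hz2 i j τ).trans_le (hle2 τ)

end Pool.Agent.H5.N6F
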