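import Pool.Agent.H5.N6F.SWP

/-! # Row FCEL: approximation in the big cell -/

set_option autoImplicit false

open Polynomial NumberField IsDedekindDomain Matrix Pool.Agent.H32.QC Pool.Agent.H34.N6
open Pool.Agent.H18.N6F

namespace Pool.Agent.H5.N6F

section

variable {F : Type} [Field F]

def Xm (a : Fin 3 → Fin 7 → F) : Matrix (Fin 3) (Fin 3) F := Matrix.of fun i j => a i (lo j)

def Sm (a : Fin 3 → Fin 7 → F) : Matrix (Fin 3) (Fin 3) F := Matrix.of fun i j => a i (hi j)

def rv (a : Fin 3 → Fin 7 → F) : Fin 3 → F := fun i => a i 3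

noncomputable def Ym (δ : F) (a : Fin 3 → Fin 7 → F) : Matrix (Fin 3) (Fin 3) F :=
  (((Xm a).det)⁻¹ • ((Xm a).adjugate * (Sm a - (Sm a)ᵀ - (δ / 2) • vecMulVec (rv a) (rv a))))ᵀ

noncomputable def cc (δ : F) (a : Fin 3 → Fin 7 → F) : Fin 3 → Fin 7 → F := fun i =>
  ![a i 0, a i 1, a i 2, a i 3, Ym δ a i 0, Ym δ a i 1, Ym δ a i 2]

lemma cc_lo (δ : F) (a : Fin 3 → Fin 7 → F) (i j : Fin 3) : cc δ a i (lo j) = Xm a i j := by
  fin_cases j <;> rfl

lemma cc_hi (δ : F) (a : Fin 3 → Fin 7 → F) (i j : Fin 3) : cc δ a i (hi j) = Ym δ a i j := by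
  fin_cases j <;> rfl

lemma cc_3 (δ : F) (a : Fin 3 → Fin 7 → F) (i : Fin 3) : cc δ a i 3 = rv a i := rfl

lemma form_cc (δ : F) (a b : Fin 7 → F) (X Y : Matrix (Fin 3) (Fin 3) F) (i k : Fin 3)
    (r : Fin 3 → F) (h1 : ∀ j, a (lo j) = X i j) (h2 : ∀ j, a (hi j) = Y i j)
    (h3 : ∀ j, b (lo j) = X k j) (h4 : ∀ j, b (hi j) = Y k j) (h5 : a 3 = r i) (h6 : b 3 = r k) :
    a ⬝ᵥ (JJ δ *ᵥ b) = (X * Yᵀ) i k + (X * Yᵀ) k i + δ * r i * r k := by
  rw [JJ_form', h5, h6, Finset.sum_add_distrib]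
  congr 1
  congr 1
  · rw [mul_apply]
    exact Finset.sum_congr rfl fun j _ => by rw [h1, h4, transpose_apply]
  · rw [mul_apply]
    exact Finset.sum_congr rfl fun j _ => by rw [h2, h3, transpose_apply, mul_comm]

lemma X_YT (δ : F) (a : Fin 3 → Fin 7 → F) (h : (Xm a).det ≠ 0) :
    Xm a * (Ym δ a)ᵀ = Sm a - (Sm a)ᵀ - (δ / 2) • vecMulVec (rv a) (rv a) := by
  unfold Ym
  rw [transpose_transpose, mul_smul_comm, ← Matrix.mul_assoc, mul_adjugate, smul_mul_assoc,
    Matrix.one_mul, smul_smul, inv_mul_cancel₀ h, one_smul]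

lemma cc_iso (h2 : (2 : F) ≠ 0) (δ : F) (a : Fin 3 → Fin 7 → F) (h : (Xm a).det ≠ 0)
    (i k : Fin 3) : cc δ a i ⬝ᵥ (JJ δ *ᵥ cc δ a k) = 0 := by
  rw [form_cc δ (cc δ a i) (cc δ a k) (Xm a) (Ym δ a) i k (rv a) (cc_lo δ a i) (cc_hi δ a i)
    (cc_lo δ a k) (cc_hi δ a k) (cc_3 δ a i) (cc_3 δ a k), X_YT δ a h]
  simp only [Matrix.sub_apply, transpose_apply, Matrix.smul_apply, vecMulVec_apply, smul_eq_mul]
  field_simp
  ring

/-- every isotropic triple in the cell is of this form -/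
lemma exists_param (h2 : (2 : F) ≠ 0) (δ : F) (c : Fin 3 → Fin 7 → F)
    (hc : ∀ i j, c i ⬝ᵥ (JJ δ *ᵥ c j) = 0)
    (hd : (Matrix.of fun i j : Fin 3 => c i ⟨j, by omega⟩).det ≠ 0) :
    ∃ a : Fin 3 → Fin 7 → F, (Xm a).det ≠ 0 ∧ cc δ a = c := by
  set X : Matrix (Fin 3) (Fin 3) F := Matrix.of fun i j : Fin 3 => c i ⟨j, by omega⟩ with hX
  set Y : Matrix (Fin 3) (Fin 3) F := Matrix.of fun i j : Fin 3 => c i (hi j) with hY
  set r : Fin 3 → F := fun i => c i 3 with hr
  set T : Matrix (Fin 3) (Fin 3) F := X * Yᵀ + (δ / 2) • vecMulVec r r with hT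
  have hskew : ∀ i k, T i k + T k i = 0 := by
    intro i k
    have h1 := hc i k
    rw [form_cc δ (c i) (c k) X Y i k r (fun j => rfl) (fun j => rfl) (fun j => rfl)
      (fun j => rfl) rfl rfl] at h1
    simp only [hT, Matrix.add_apply, Matrix.smul_apply, vecMulVec_apply, smul_eq_mul]
    have h3 : δ / 2 * (r i * r k) + δ / 2 * (r k * r i) = δ * r i * r k := by
      field_simp
      ring
    linear_combination h1 + h3
  let a : Fin 3 → Fin 7 → F := fun i =>
    ![c i 0, c i 1, c i 2, c i 3, T i 0 / 2, T i 1 / 2, T i 2 / 2]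
  have hXa : Xm a = X := by
    ext i j
    fin_cases j <;> rfl
  have hra : rv a = r := rfl
  have hSa : Sm a - (Sm a)ᵀ = T := by
    ext i j
    have h1 : Sm a i j = T i j / 2 := by fin_cases j <;> rfl
    have h3 : Sm a j i = T j i / 2 := by fin_cases i <;> rfl
    rw [Matrix.sub_apply, transpose_apply, h1, h3]
    have h4 := hskew i j
    have h5 : T j i = - T i j := by linear_combination h4
    rw [h5]
    field_simp
    ring
  refine ⟨a, by rw [hXa]; exact hd, ?_⟩
  have hYa : Ym δ a = Y := by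
    unfold Ym
    rw [hSa, hXa, hra]
    have h1 : T - (δ / 2) • vecMulVec r r = X * Yᵀ := by
      rw [hT, add_sub_cancel_right]
    rw [h1, ← Matrix.mul_assoc, adjugate_mul, smul_mul_assoc, Matrix.one_mul, smul_smul,
      inv_mul_cancel₀ hd, one_smul, transpose_transpose]
  funext i j
  fin_cases j
  · rfl
  · rfl
  · rfl
  · rfl
  · show Ym δ a i 0 = c i 4
    rw [hYa]
    rfl
  · show Ym δ a i 1 = c i 5
    rw [hYa]
    rfl
  · show Ym δ a i 2 = c i 6
    rw [hYa]
    rfl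

lemma cc_map {K : Type} [Field K] (ι : K →+* F) (d : K) (a : Fin 3 → Fin 7 → K) (i : Fin 3)
    (j : Fin 7) : ι (cc d a i j) = cc (ι d) (fun i j => ι (a i j)) i j := by
  have hX : Xm (fun i j => ι (a i j)) = (Xm a).map ι := rfl
  have hS : Sm (fun i j => ι (a i j)) = (Sm a).map ι := rfl
  have hY : Ym (ι d) (fun i j => ι (a i j)) = (Ym d a).map ι := by
    unfold Ym
    rw [hX, hS]
    have h1 : ((Xm a).map ι).det = ι (Xm a).det := (RingHom.map_det ι _).symm
    have h3 : ((Xm a).map ι).adjugate = (Xm a).adjugate.map ι := (RingHom.map_adjugate ι _).symm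
    have h4 : ((Sm a).map ι - ((Sm a).map ι)ᵀ - (ι d / 2) • vecMulVec (rv fun i j => ι (a i j))
        (rv fun i j => ι (a i j))) =
        (Sm a - (Sm a)ᵀ - (d / 2) • vecMulVec (rv a) (rv a)).map ι := by
      ext i j
      simp only [Matrix.sub_apply, transpose_apply, Matrix.smul_apply, vecMulVec_apply, smul_eq_mul,
        Matrix.map_apply, rv, map_sub, map_mul, map_div₀, map_ofNat]
    rw [h1, h3, h4, ← Matrix.map_mul]
    ext i j
    simp only [transpose_apply, Matrix.smul_apply, Matrix.map_apply, smul_eq_mul, map_mul, map_inv₀]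
  fin_cases j
  · rfl
  · rfl
  · rfl
  · rfl
  · show ι (Ym d a i 0) = Ym (ι d) (fun i j => ι (a i j)) i 0
    rw [hY]
    rfl
  · show ι (Ym d a i 1) = Ym (ι d) (fun i j => ι (a i j)) i 1
    rw [hY]
    rfl
  · show ι (Ym d a i 2) = Ym (ι d) (fun i j => ι (a i j)) i 2
    rw [hY]
    rfl

end

lemma cc_cont {F : Type} [NormedField F] (δ : F) (a : Fin 3 → Fin 7 → F) (h : (Xm a).det ≠ 0)
    (i : Fin 3) (j : Fin 7) : ContinuousAt (fun a : Fin 3 → Fin 7 → F => cc δ a i j) a := by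
  have hX : Continuous fun a : Fin 3 → Fin 7 → F => Xm a :=
    continuous_matrix fun i j => by
      show Continuous fun a : Fin 3 → Fin 7 → F => a i (lo j)
      fun_prop
  have hS : Continuous fun a : Fin 3 → Fin 7 → F => Sm a :=
    continuous_matrix fun i j => by
      show Continuous fun a : Fin 3 → Fin 7 → F => a i (hi j)
      fun_prop
  have hdet : Continuous fun a : Fin 3 → Fin 7 → F => (Xm a).det := hX.matrix_det
  have hR : Continuous fun a : Fin 3 → Fin 7 → F =>
      (Xm a).adjugate * (Sm a - (Sm a)ᵀ - (δ / 2) • vecMulVec (rv a) (rv a)) := by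
    refine hX.matrix_adjugate.matrix_mul ((hS.sub hS.matrix_transpose).sub ?_)
    refine continuous_matrix fun i j => ?_
    show Continuous fun a : Fin 3 → Fin 7 → F => (δ / 2) * (a i 3 * a j 3)
    fun_prop
  have hY : ∀ i j : Fin 3, ContinuousAt (fun a : Fin 3 → Fin 7 → F => Ym δ a i j) a := by
    intro i j
    show ContinuousAt (fun a : Fin 3 → Fin 7 → F => ((Xm a).det)⁻¹ *
      ((Xm a).adjugate * (Sm a - (Sm a)ᵀ - (δ / 2) • vecMulVec (rv a) (rv a))) j i) a
    exact (hdet.continuousAt.inv₀ h).mul (hR.matrix_elem j i).continuousAt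
  fin_cases j
  · show ContinuousAt (fun a : Fin 3 → Fin 7 → F => a i 0) a
    exact ((continuous_apply (0 : Fin 7)).comp (continuous_apply i)).continuousAt
  · show ContinuousAt (fun a : Fin 3 → Fin 7 → F => a i 1) a
    exact ((continuous_apply (1 : Fin 7)).comp (continuous_apply i)).continuousAt
  · show ContinuousAt (fun a : Fin 3 → Fin 7 → F => a i 2) a
    exact ((continuous_apply (2 : Fin 7)).comp (continuous_apply i)).continuousAt
  · show ContinuousAt (fun a : Fin 3 → Fin 7 → F => a i 3) a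
    exact ((continuous_apply (3 : Fin 7)).comp (continuous_apply i)).continuousAt
  · exact hY i 0
  · exact hY i 1
  · exact hY i 2

theorem pf_CEL : T_CEL := by
  classical
  intro K F _ _ ι hι h2 d hd c hc hdet ε hε
  have h2K : (2 : K) ≠ 0 := by
    intro h
    apply h2
    have := congrArg ι h
    rwa [map_ofNat, map_zero] at this
  obtain ⟨a, ha, hac⟩ := exists_param h2 (ι d) c hc hdet
  have hdetc : Continuous fun a : Fin 3 → Fin 7 → F => (Xm a).det := by
    refine Continuous.matrix_det (continuous_matrix fun i j => ?_)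
    show Continuous fun a : Fin 3 → Fin 7 → F => a i (lo j)
    fun_prop
  have ev : ∀ᶠ b in nhds a, (Xm b).det ≠ 0 ∧
      ∀ i j, ‖cc (ι d) b i j - cc (ι d) a i j‖ < ε := by
    refine (hdetc.continuousAt.eventually_ne ha).and ?_
    refine Filter.eventually_all.2 fun i => Filter.eventually_all.2 fun j => ?_
    have h3 := Metric.continuousAt_iff.1 (cc_cont (ι d) a ha i j) ε hε
    obtain ⟨δ, hδ, h3⟩ := h3
    filter_upwards [Metric.ball_mem_nhds a hδ] with b hb
    have h4 := h3 hb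
    rwa [dist_eq_norm] at h4
  have hdense : DenseRange fun (b : Fin 3 → Fin 7 → K) (i : Fin 3) (j : Fin 7) => ι (b i j) :=
    DenseRange.piMap (f := fun (_ : Fin 3) (b : Fin 7 → K) (j : Fin 7) => ι (b j))
      fun _ => DenseRange.piMap (f := fun (_ : Fin 7) (b : K) => ι b) fun _ => hι
  obtain ⟨b, hb⟩ := hdense.exists_mem_open isOpen_interior
    ⟨a, mem_interior_iff_mem_nhds.2 ev⟩
  obtain ⟨hb1, hb2⟩ := interior_subset hb
  have hXb : (Xm b).det ≠ 0 := by
    intro h
    apply hb1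
    have h3 : Xm (fun i j => ι (b i j)) = (Xm b).map ι := rfl
    rw [h3]
    have h4 : ((Xm b).map ι).det = ι (Xm b).det := (RingHom.map_det ι _).symm
    rw [h4, h, map_zero]
  refine ⟨cc d b, cc_iso h2K d b hXb, ?_, fun i j => ?_⟩
  · have h3 : (Matrix.of fun i j : Fin 3 => cc d b i ⟨j, by omega⟩) = Xm b := by
      ext i j
      exact cc_lo d b i j
    rw [h3]
    exact hXb
  · rw [cc_map, ← hac]
    exact hb2 i j

end Pool.Agent.H5.N6F
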