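import Pool.Agent.H5.N6F.APX

/-! # Rows FSWP, FCEL -/

set_option autoImplicit false

open Polynomial NumberField IsDedekindDomain Matrix Pool.Agent.H32.QC Pool.Agent.H34.N6
open Pool.Agent.H18.N6F

namespace Pool.Agent.H5.N6F

/-- the value of the split form -/
lemma JJ_form {F : Type*} [Field F] (d : F) (x y : Fin 7 → F) :
    x ⬝ᵥ (JJ d *ᵥ y) = x 0 * y 4 + x 1 * y 5 + x 2 * y 6 + d * x 3 * y 3 +
      x 4 * y 0 + x 5 * y 1 + x 6 * y 2 := by
  have h0 : (JJ d *ᵥ y) 0 = y 4 := by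
    simp [mulVec, dotProduct, JJ, Fin.sum_univ_seven]
  have h1 : (JJ d *ᵥ y) 1 = y 5 := by
    simp [mulVec, dotProduct, JJ, Fin.sum_univ_seven]
  have h2 : (JJ d *ᵥ y) 2 = y 6 := by
    simp [mulVec, dotProduct, JJ, Fin.sum_univ_seven]
  have h3 : (JJ d *ᵥ y) 3 = d * y 3 := by
    simp [mulVec, dotProduct, JJ, Fin.sum_univ_seven]
  have h4 : (JJ d *ᵥ y) 4 = y 0 := by
    simp [mulVec, dotProduct, JJ, Fin.sum_univ_seven]
  have h5 : (JJ d *ᵥ y) 5 = y 1 := by
    simp [mulVec, dotProduct, JJ, Fin.sum_univ_seven]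
  have h6 : (JJ d *ᵥ y) 6 = y 2 := by
    simp [mulVec, dotProduct, JJ, Fin.sum_univ_seven]
  rw [dotProduct, Fin.sum_univ_seven, h0, h1, h2, h3, h4, h5, h6]
  ring

/-- the index of the pair -/
def lo (j : Fin 3) : Fin 7 := ⟨j, by omega⟩

/-- the partner -/
def hi (j : Fin 3) : Fin 7 := ⟨j + 4, by omega⟩

lemma JJ_form' {F : Type*} [Field F] (d : F) (x y : Fin 7 → F) :
    x ⬝ᵥ (JJ d *ᵥ y) = (∑ j : Fin 3, (x (lo j) * y (hi j) + x (hi j) * y (lo j))) +
      d * x 3 * y 3 := by
  rw [JJ_form, Fin.sum_univ_three]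
  show _ = (x 0 * y 4 + x 4 * y 0) + (x 1 * y 5 + x 5 * y 1) + (x 2 * y 6 + x 6 * y 2) +
    d * x 3 * y 3
  ring

lemma sw_lo (σ : Fin 3 → Bool) (j : Fin 3) : sw σ (lo j) = if σ j then hi j else lo j := by
  unfold sw
  rw [dif_pos (show ((lo j : Fin 7) : ℕ) < 3 from j.2)]
  rfl

/-- the other index of the pair -/
def ot (σ : Fin 3 → Bool) (j : Fin 3) : Fin 7 := if σ j then lo j else hi j

lemma pair_form {F : Type*} [Field F] (σ : Fin 3 → Bool) (d : F) (x y : Fin 7 → F) :
    x ⬝ᵥ (JJ d *ᵥ y) = (∑ j : Fin 3, (x (sw σ (lo j)) * y (ot σ j) +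
      x (ot σ j) * y (sw σ (lo j)))) + d * x 3 * y 3 := by
  rw [JJ_form']
  congr 1
  refine Finset.sum_congr rfl fun j _ => ?_
  rw [sw_lo, ot]
  by_cases h : σ j = true
  · rw [if_pos h, if_pos h]
    ring
  · rw [if_neg h, if_neg h]

lemma all_idx (P : Fin 7 → Prop) (σ : Fin 3 → Bool) (h3 : P 3)
    (h : ∀ j : Fin 3, P (sw σ (lo j)) ∧ P (ot σ j)) : ∀ i, P i := by
  have h1 : ∀ j : Fin 3, P (lo j) ∧ P (hi j) := by
    intro j
    have h2 := h j
    rw [sw_lo, ot] at h2
    by_cases hs : σ j = true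
    · rw [if_pos hs, if_pos hs] at h2
      exact ⟨h2.2, h2.1⟩
    · rw [if_neg hs, if_neg hs] at h2
      exact h2
  intro i
  fin_cases i
  · exact (h1 0).1
  · exact (h1 1).1
  · exact (h1 2).1
  · exact h3
  · exact (h1 0).2
  · exact (h1 1).2
  · exact (h1 2).2

theorem pf_SWP : T_SWP := by
  classical
  intro F _ h2 d hd c hc hiso
  set L := Submodule.span F (Set.range c) with hL
  have hLiso : ∀ u ∈ L, ∀ v ∈ L, u ⬝ᵥ (JJ d *ᵥ v) = 0 := by
    intro x hx y hy
    induction hx using Submodule.span_induction with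
    | mem x hx =>
      obtain ⟨i, rfl⟩ := hx
      induction hy using Submodule.span_induction with
      | mem y hy =>
        obtain ⟨j, rfl⟩ := hy
        exact hiso i j
      | zero => rw [mulVec_zero, dotProduct_zero]
      | add y z _ _ h1 h2 => rw [mulVec_add, dotProduct_add, h1, h2, add_zero]
      | smul a y _ h1 => rw [mulVec_smul, dotProduct_smul, h1, smul_zero]
    | zero => rw [zero_dotProduct]
    | add x z _ _ h1 h2 => rw [add_dotProduct, h1, h2, add_zero]
    | smul a x _ h1 => rw [smul_dotProduct, h1, smul_zero]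
  let Z : (Fin 3 → Bool) → Submodule F (Fin 7 → F) := fun σ =>
    { carrier := {v | v ∈ L ∧ ∀ j : Fin 3, v (sw σ (lo j)) = 0}
      add_mem' := by
        rintro a b ⟨ha, ha'⟩ ⟨hb, hb'⟩
        exact ⟨L.add_mem ha hb, fun j => by rw [Pi.add_apply, ha' j, hb' j, add_zero]⟩
      zero_mem' := ⟨L.zero_mem, fun j => rfl⟩
      smul_mem' := by
        rintro a b ⟨hb, hb'⟩
        exact ⟨L.smul_mem a hb, fun j => by rw [Pi.smul_apply, hb' j, smul_zero]⟩ }
  have hZ : ∀ σ v, v ∈ Z σ ↔ v ∈ L ∧ ∀ j : Fin 3, v (sw σ (lo j)) = 0 := fun σ v => Iff.rfl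
  have hZ3 : ∀ σ v, v ∈ Z σ → v 3 = 0 := by
    intro σ v hv
    have h1 := hLiso v hv.1 v hv.1
    rw [pair_form σ] at h1
    have h3 : ∑ j : Fin 3, (v (sw σ (lo j)) * v (ot σ j) + v (ot σ j) * v (sw σ (lo j))) = 0 :=
      Finset.sum_eq_zero fun j _ => by rw [hv.2 j]; ring
    rw [h3, zero_add] at h1
    have h4 : d * v 3 * v 3 = d * (v 3) ^ 2 := by ring
    rw [h4] at h1
    rcases mul_eq_zero.1 h1 with h5 | h5
    · exact absurd h5 hd
    · exact pow_eq_zero_iff two_ne_zero |>.1 h5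
  obtain ⟨σ, hσ⟩ := Finite.exists_min fun σ => Module.finrank F (Z σ)
  have hbot : ∀ v ∈ Z σ, v = 0 := by
    intro v hv
    by_contra hv0
    have hex : ∃ j0 : Fin 3, v (ot σ j0) ≠ 0 := by
      by_contra h
      push Not at h
      apply hv0
      funext i
      exact all_idx (fun i => v i = 0) σ (hZ3 σ v hv) (fun j => ⟨hv.2 j, h j⟩) i
    obtain ⟨j0, hj0⟩ := hex
    let τ : Fin 3 → Bool := Function.update σ j0 (!σ j0)
    have hτ0 : sw τ (lo j0) = ot σ j0 := by
      rw [sw_lo, ot]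
      show (if (Function.update σ j0 (!σ j0)) j0 = true then hi j0 else lo j0) = _
      rw [Function.update_self]
      cases σ j0 <;> simp
    have hτ : ∀ j, j ≠ j0 → sw τ (lo j) = sw σ (lo j) := by
      intro j hj
      rw [sw_lo, sw_lo]
      show (if (Function.update σ j0 (!σ j0)) j = true then hi j else lo j) = _
      rw [Function.update_of_ne hj]
    have hle : Z τ ≤ Z σ := by
      intro u hu
      refine ⟨hu.1, fun j => ?_⟩
      by_cases hj : j = j0
      · subst hj
        have h1 := hLiso u hu.1 v hv.1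
        rw [pair_form σ, hZ3 σ v hv, mul_zero, add_zero] at h1
        rw [Finset.sum_eq_single j] at h1
        · have h3 : u (ot σ j) = 0 := by
            rw [← hτ0]
            exact hu.2 j
          rw [h3, zero_mul, add_zero] at h1
          rcases mul_eq_zero.1 h1 with h4 | h4
          · exact h4
          · exact absurd h4 hj0
        · intro k _ hk
          have h3 : u (sw σ (lo k)) = 0 := by
            rw [← hτ k hk]
            exact hu.2 k
          rw [h3, hv.2 k]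
          ring
        · intro h
          exact absurd (Finset.mem_univ _) h
      · rw [← hτ j hj]
        exact hu.2 j
    have hlt : Z τ < Z σ := by
      refine lt_of_le_of_ne hle fun h => ?_
      have h1 : v ∈ Z τ := by rw [h]; exact hv
      have h3 := h1.2 j0
      rw [hτ0] at h3
      exact hj0 h3
    have h5 := Submodule.finrank_lt_finrank_of_lt hlt
    exact absurd h5 (not_lt.2 (hσ τ))
  refine ⟨σ, fun hdet => ?_⟩
  obtain ⟨a, ha, ha0⟩ := Matrix.exists_vecMul_eq_zero_iff.2 hdet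
  have h1 : (∑ i, a i • c i) ∈ Z σ := by
    refine ⟨Submodule.sum_mem _ fun i _ => L.smul_mem _ (Submodule.subset_span ⟨i, rfl⟩),
      fun j => ?_⟩
    have h3 := congrFun ha0 j
    simp only [vecMul, dotProduct, Matrix.of_apply, Pi.zero_apply] at h3
    simp only [Finset.sum_apply, Pi.smul_apply, smul_eq_mul]
    exact h3
  have h3 := hbot _ h1
  have h4 := Fintype.linearIndependent_iff.1 hc a h3
  exact ha (funext h4)

end Pool.Agent.H5.N6F
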